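import Pool.Agent.Helper478_Surds.Kl

/-!
# Exponential sums over `F n ^ θ`, all frequencies up to `exp ((log N) ^ (1 + γ))`
-/

set_option autoImplicit false

namespace Pool.Agent.Helper478.Surds

open Finset Filter
open Pool.Agent.H469R2.NK (e norm_e e_add e_zero conj_e)

/-- comparison of powers of a large number -/
lemma ev_pow (a b B : ℝ) (hab : a < b) : ∀ᶠ y : ℝ in atTop, B * y ^ a ≤ y ^ b := by
  have h := (tendsto_rpow_atTop (by linarith : 0 < b - a)).eventually_ge_atTop B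
  filter_upwards [h, eventually_gt_atTop 0] with y hy hy0
  have : y ^ b = y ^ (b - a) * y ^ a := by
    rw [← Real.rpow_add hy0]; congr 1; ring
  rw [this]
  exact mul_le_mul_of_nonneg_right hy (Real.rpow_pos_of_pos hy0 _).le

/-- **Exponential sums** with `F n ^ θ`: for all frequencies up to `exp ((log N) ^ (1 + γ))` there is a
saving `exp (2 (log N) ^ (1 - 3 γ))` -/
theorem range_bd : ∃ γ : ℝ, 0 < γ ∧ γ ≤ 1 / 20 ∧ ∀ θ : ℝ, -1 ≤ θ → θ < 1 → θ ≠ 0 → ∀ δ : ℝ, 0 < δ →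
    ∃ N₀ : ℕ, ∀ (N R : ℕ) (F : ℝ), N₀ ≤ N → R ≤ N → 0 < F → (N : ℝ) ^ δ ≤ F * (N : ℝ) ^ θ →
      F * (N : ℝ) ^ θ ≤ Real.exp ((Real.log N) ^ (1 + γ)) →
      ‖∑ n ∈ Ioc 0 R, e (F * ((N + n : ℕ) : ℝ) ^ θ)‖ ≤ N * Real.exp (-(2 * (Real.log N) ^ (1 - 3 * γ))) := by
  obtain ⟨C, hC⟩ := vkg
  obtain ⟨γ, hγ⟩ : ∃ γ : ℝ, γ = 1 / (2 * C + 20) := ⟨_, rfl⟩
  have hC0 : (0 : ℝ) ≤ C := Nat.cast_nonneg C
  have hγ0 : 0 < γ := by rw [hγ]; positivity
  have hγ1 : γ ≤ 1 / 20 := by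
    rw [hγ]
    apply one_div_le_one_div_of_le (by norm_num)
    linarith
  have hγC : γ * C ≤ 1 / 2 := by
    rw [hγ, one_div, inv_mul_le_iff₀ (by positivity)]
    linarith
  refine ⟨γ, hγ0, hγ1, ?_⟩
  intro θ h1 h2 h3 δ hδ
  obtain ⟨A, hA, hvk⟩ := hC θ h1 h2 h3
  have hθ0 : 0 < |θ| := abs_pos.2 h3
  -- eventual inequalities in `y = log N`
  have ev1 : ∀ᶠ y : ℝ in atTop, ((1 + A) * (C * 3 ^ C) * (9 * 10 ^ 10 * 3)) * y ^ (1 / 2 : ℝ) ≤ y ^ (1 - 2 * γ) :=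
    ev_pow _ _ _ (by linarith)
  have ev2 : ∀ᶠ y : ℝ in atTop, (2 * (9 * 10 ^ 10 * 3)) * y ^ (1 - 3 * γ) ≤ y ^ (1 - 2 * γ) :=
    ev_pow _ _ _ (by linarith)
  have ev3 : ∀ᶠ y : ℝ in atTop, (4 / δ) * y ^ (1 - 3 * γ) ≤ y ^ (1 : ℝ) :=
    ev_pow _ _ _ (by linarith)
  have ev4 : ∀ᶠ y : ℝ in atTop, Real.log (18 / |θ|) * (2 / δ) ≤ y := eventually_ge_atTop _
  have hlog : Tendsto (fun N : ℕ => Real.log N) atTop atTop :=
    Real.tendsto_log_atTop.comp tendsto_natCast_atTop_atTop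
  have hev := hlog.eventually ((ev1.and ev2).and ((ev3.and ev4).and (eventually_ge_atTop 10)))
  obtain ⟨N₀, hN₀⟩ := eventually_atTop.1 (hev.and (eventually_ge_atTop 400))
  refine ⟨N₀, ?_⟩
  intro N R F hN hR hF hlo hhi
  obtain ⟨⟨⟨q1, q2⟩, ⟨q3, q4⟩, q5⟩, q6⟩ := hN₀ N hN
  set y : ℝ := Real.log N with hy
  have hy0 : 0 < y := by linarith
  have hN400 : (400 : ℝ) ≤ N := by exact_mod_cast q6
  have hN0 : (0 : ℝ) < N := by linarith
  have hN1 : (1 : ℝ) ≤ N := by linarith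
  have hNexp : (N : ℝ) = Real.exp y := by rw [hy, Real.exp_log hN0]
  have hNθ : 0 < (N : ℝ) ^ θ := Real.rpow_pos_of_pos hN0 _
  have hT0 : 0 < F * (N : ℝ) ^ θ := by positivity
  have hexpN : ∀ a : ℝ, (N : ℝ) ^ a = Real.exp (y * a) := by
    intro a
    rw [Real.rpow_def_of_pos hN0]
  rcases le_or_gt (12 * F * (N : ℝ) ^ θ) ((N : ℝ) ^ (1 / 2 : ℝ)) with hsmall | hbig
  · -- small frequencies
    have hhalf : F * (N : ℝ) ^ θ ≤ N / 2 := by
      have e1 : (N : ℝ) ^ (1 / 2 : ℝ) ≤ N := by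
        calc (N : ℝ) ^ (1 / 2 : ℝ) ≤ (N : ℝ) ^ (1 : ℝ) := Real.rpow_le_rpow_of_exponent_le hN1 (by norm_num)
          _ = N := Real.rpow_one _
      nlinarith
    refine (kl θ h1 h2 h3 N R F (by omega) hR hF hhalf).trans ?_
    have e1 : 18 * (N : ℝ) / (|θ| * (F * (N : ℝ) ^ θ)) ≤ 18 * N / (|θ| * (N : ℝ) ^ δ) := by gcongr
    refine e1.trans ?_
    have e2 : 18 * (N : ℝ) / (|θ| * (N : ℝ) ^ δ) = N * ((18 / |θ|) * Real.exp (-(y * δ))) := by
      rw [hexpN, Real.exp_neg]; field_simp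
    rw [e2]
    apply mul_le_mul_of_nonneg_left _ hN0.le
    have e3 : (18 / |θ|) = Real.exp (Real.log (18 / |θ|)) := (Real.exp_log (by positivity)).symm
    rw [e3, ← Real.exp_add, Real.exp_le_exp]
    rw [Real.rpow_one] at q3
    have e4 : 2 * y ^ (1 - 3 * γ) ≤ y * δ / 2 := by
      have := mul_le_mul_of_nonneg_right q3 hδ.le
      have e5 : 4 / δ * y ^ (1 - 3 * γ) * δ = 4 * y ^ (1 - 3 * γ) := by field_simp
      rw [e5] at this
      linarith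
    have e6 : Real.log (18 / |θ|) ≤ y * δ / 2 := by
      have := mul_le_mul_of_nonneg_right q4 (by positivity : 0 ≤ δ / 2)
      have e5 : Real.log (18 / |θ|) * (2 / δ) * (δ / 2) = Real.log (18 / |θ|) := by field_simp
      rw [e5] at this
      linarith
    linarith
  · -- large frequencies
    set κ : ℝ := Real.log (12 * F * (N : ℝ) ^ θ) / y with hκ
    have h12 : 0 < 12 * F * (N : ℝ) ^ θ := by positivity
    have hκN : (N : ℝ) ^ κ = 12 * F * (N : ℝ) ^ θ := by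
      rw [hexpN, hκ, mul_div_cancel₀ _ hy0.ne', Real.exp_log h12]
    have hκ1 : 1 / 2 ≤ κ := by
      rw [hκ, le_div_iff₀ hy0]
      have e1 := Real.log_le_log (Real.rpow_pos_of_pos hN0 _) hbig.le
      rw [Real.log_rpow hN0, ← hy] at e1
      exact e1
    have hyγ : 1 ≤ y ^ γ := Real.one_le_rpow (by linarith) hγ0.le
    have hκ2 : 1 + κ ≤ 3 * y ^ γ := by
      have e1 : Real.log (12 * F * (N : ℝ) ^ θ) ≤ 3 + y ^ (1 + γ) := by
        have e2 : 12 * F * (N : ℝ) ^ θ = 12 * (F * (N : ℝ) ^ θ) := by ring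
        rw [e2, Real.log_mul (by norm_num) hT0.ne']
        have e3 : Real.log 12 ≤ 3 := by
          rw [Real.log_le_iff_le_exp (by norm_num)]
          have h3 : Real.exp 3 = Real.exp 1 * Real.exp 1 * Real.exp 1 := by
            rw [← Real.exp_add, ← Real.exp_add]; norm_num
          have h4 := Real.exp_one_gt_d9
          rw [h3]; nlinarith
        have e4 := Real.log_le_log hT0 hhi
        rw [Real.log_exp] at e4
        linarith
      have e5 : y ^ (1 + γ) = y * y ^ γ := by rw [Real.rpow_add hy0, Real.rpow_one]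
      have e6 : κ ≤ 1 + y ^ γ := by
        rw [hκ, div_le_iff₀ hy0]
        rw [e5] at e1
        nlinarith
      linarith
    refine (hvk N R F κ (by omega) hR hF hκ1 hκN).trans ?_
    have hκpos : 0 < 1 + κ := by linarith
    have e1 : (1 + A) * (C * (1 + κ) ^ C) ≤ (1 + A) * (C * 3 ^ C) * y ^ (1 / 2 : ℝ) := by
      have f1 : (1 + κ) ^ C ≤ 3 ^ C * y ^ (1 / 2 : ℝ) := by
        calc (1 + κ) ^ C ≤ (3 * y ^ γ) ^ C := pow_le_pow_left₀ hκpos.le hκ2 C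
          _ = 3 ^ C * y ^ (γ * C) := by
              rw [mul_pow, ← Real.rpow_natCast (y ^ γ) C, ← Real.rpow_mul hy0.le]
          _ ≤ 3 ^ C * y ^ (1 / 2 : ℝ) := by
              gcongr
              linarith
      calc (1 + A) * (C * (1 + κ) ^ C) ≤ (1 + A) * (C * (3 ^ C * y ^ (1 / 2 : ℝ))) := by gcongr
        _ = _ := by ring
    have e2 : 1 / (9 * 10 ^ 10) * y ^ (1 - 2 * γ) ≤ y * (1 / 10 ^ 10 / (1 + κ) ^ 2) := by
      have f1 : (1 + κ) ^ 2 ≤ 9 * y ^ (2 * γ) := by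
        calc (1 + κ) ^ 2 ≤ (3 * y ^ γ) ^ 2 := pow_le_pow_left₀ hκpos.le hκ2 2
          _ = 9 * y ^ (2 * γ) := by
              rw [mul_pow, ← Real.rpow_natCast (y ^ γ) 2, ← Real.rpow_mul hy0.le]
              push_cast
              ring_nf
      have f2 : y ^ (1 - 2 * γ) * y ^ (2 * γ) = y := by
        rw [← Real.rpow_add hy0]
        have : 1 - 2 * γ + 2 * γ = 1 := by ring
        rw [this, Real.rpow_one]
      have f3 : 0 < (1 + κ) ^ 2 := by positivity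
      have f4 : y * (1 / 10 ^ 10 / (1 + κ) ^ 2) = (y * (1 / 10 ^ 10)) / (1 + κ) ^ 2 := by ring
      rw [f4, le_div_iff₀ f3]
      calc 1 / (9 * 10 ^ 10) * y ^ (1 - 2 * γ) * (1 + κ) ^ 2 ≤
            1 / (9 * 10 ^ 10) * y ^ (1 - 2 * γ) * (9 * y ^ (2 * γ)) := by gcongr
        _ = 1 / 10 ^ 10 * (y ^ (1 - 2 * γ) * y ^ (2 * γ)) := by ring
        _ = y * (1 / 10 ^ 10) := by rw [f2]; ring
    rw [hexpN, ← Real.exp_add, hNexp, ← Real.exp_add, Real.exp_le_exp]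
    have e8 : 1 / (9 * 10 ^ 10 * 3) * y ^ (1 - 2 * γ) = y ^ (1 - 2 * γ) / (9 * 10 ^ 10 * 3) := by ring
    have e3 : (1 + A) * (C * 3 ^ C) * y ^ (1 / 2 : ℝ) ≤ 1 / (9 * 10 ^ 10 * 3) * y ^ (1 - 2 * γ) := by
      rw [e8, le_div_iff₀ (by norm_num)]
      linarith
    have e4 : 2 * y ^ (1 - 3 * γ) ≤ 1 / (9 * 10 ^ 10 * 3) * y ^ (1 - 2 * γ) := by
      rw [e8, le_div_iff₀ (by norm_num)]
      linarith
    have e5 : 0 ≤ y ^ (1 - 2 * γ) := (Real.rpow_pos_of_pos hy0 _).le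
    have e6 : y * (1 - 1 / 10 ^ 10 / (1 + κ) ^ 2) = y - y * (1 / 10 ^ 10 / (1 + κ) ^ 2) := by ring
    rw [e6]
    have e7 : 1 / (9 * 10 ^ 10 * 3) * y ^ (1 - 2 * γ) * 3 = 1 / (9 * 10 ^ 10) * y ^ (1 - 2 * γ) := by ring
    nlinarith

end Pool.Agent.Helper478.Surds
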