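import Pool.Agent.Helper478_Surds.Vkg

/-!
# Exponential sums over `F n ^ θ` of small frequency
-/

set_option autoImplicit false

namespace Pool.Agent.Helper478.Surds

open Finset
open Pool.Agent.H469R2.NK (e norm_e e_add e_zero conj_e kusmin_landau_anti norm_sum_neg)

lemma mvt (θ y : ℝ) (hy : 0 < y) : ∃ ξ ∈ Set.Ioo y (y + 1), (y + 1) ^ θ - y ^ θ = θ * ξ ^ (θ - 1) := by
  have hc : ContinuousOn (fun t : ℝ => t ^ θ) (Set.Icc y (y + 1)) := by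
    intro t ht
    exact (Real.continuousAt_rpow_const t θ (Or.inl (by linarith [ht.1]))).continuousWithinAt
  have hd : ∀ t ∈ Set.Ioo y (y + 1), HasDerivAt (fun t : ℝ => t ^ θ) (θ * t ^ (θ - 1)) t := by
    intro t ht
    exact Real.hasDerivAt_rpow_const (Or.inl (by linarith [ht.1]))
  obtain ⟨ξ, hξ, h⟩ := exists_hasDerivAt_eq_slope (fun t : ℝ => t ^ θ) (fun t => θ * t ^ (θ - 1))
    (by linarith) hc hd
  refine ⟨ξ, hξ, ?_⟩
  rw [h]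
  have : y + 1 - y = 1 := by ring
  rw [this, div_one]

/-- the first derivative test -/
theorem kl (θ : ℝ) (h1 : -1 ≤ θ) (h2 : θ < 1) (h3 : θ ≠ 0) (N R : ℕ) (F : ℝ) (hN : 2 ≤ N)
    (hR : R ≤ N) (hF : 0 < F) (hFN : F * (N : ℝ) ^ θ ≤ N / 2) :
    ‖∑ n ∈ Ioc 0 R, e (F * ((N + n : ℕ) : ℝ) ^ θ)‖ ≤ 18 * N / (|θ| * (F * (N : ℝ) ^ θ)) := by
  have hNr : (2 : ℝ) ≤ N := by exact_mod_cast hN
  have hN0 : (0 : ℝ) < N := by linarith
  have hθ0 : 0 < |θ| := abs_pos.2 h3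
  have hθ1 : |θ| ≤ 1 := abs_le.2 ⟨h1, h2.le⟩
  have hNθ : 0 < (N : ℝ) ^ θ := Real.rpow_pos_of_pos hN0 _
  -- the sign
  obtain ⟨s, hs, hsθ⟩ : ∃ s : ℝ, (s = 1 ∨ s = -1) ∧ s * θ = |θ| := by
    rcases le_total 0 θ with h | h
    · exact ⟨1, Or.inl rfl, by rw [one_mul, abs_of_nonneg h]⟩
    · exact ⟨-1, Or.inr rfl, by rw [abs_of_nonpos h]; ring⟩
  set x : ℕ → ℝ := fun n => s * (F * ((N + (n + 1) : ℕ) : ℝ) ^ θ) with hx
  have hnorm : ‖∑ n ∈ Ioc 0 R, e (F * ((N + n : ℕ) : ℝ) ^ θ)‖ = ‖∑ n ∈ range R, e (x n)‖ := by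
    have e1 : ∑ n ∈ Ioc 0 R, e (F * ((N + n : ℕ) : ℝ) ^ θ) =
        ∑ n ∈ range R, e (F * ((N + (n + 1) : ℕ) : ℝ) ^ θ) := by
      rw [show Ioc 0 R = Ico 1 (R + 1) from rfl, sum_Ico_eq_sum_range, Nat.add_sub_cancel]
      refine sum_congr rfl fun n _ => ?_
      rw [add_comm 1 n]
    rw [e1]
    rcases hs with rfl | rfl
    · simp only [hx, one_mul]
    · rw [← norm_sum_neg]
      simp only [hx, neg_mul, one_mul]
  rw [hnorm]
  set t : ℝ := |θ| * (F * (N : ℝ) ^ θ) / (9 * N) with ht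
  have ht0 : 0 < t := by positivity
  have hdiff : ∀ n : ℕ, ∃ ξ : ℝ, ((N + (n + 1) : ℕ) : ℝ) < ξ ∧ ξ < ((N + (n + 1) : ℕ) : ℝ) + 1 ∧
      x (n + 1) - x n = |θ| * (F * ξ ^ (θ - 1)) := by
    intro n
    have hpos : (0 : ℝ) < ((N + (n + 1) : ℕ) : ℝ) := by push_cast; positivity
    obtain ⟨ξ, hξ, h⟩ := mvt θ ((N + (n + 1) : ℕ) : ℝ) hpos
    refine ⟨ξ, hξ.1, hξ.2, ?_⟩
    have e1 : ((N + (n + 1 + 1) : ℕ) : ℝ) = ((N + (n + 1) : ℕ) : ℝ) + 1 := by push_cast; ring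
    simp only [hx]
    rw [e1, ← hsθ]
    linear_combination (s * F) * h
  have hbnd := kusmin_landau_anti x R (θ := t) ht0 ?_ ?_ ?_
  · refine hbnd.trans (le_of_eq ?_)
    rw [ht]
    field_simp
    ring
  · intro n hn
    obtain ⟨ξ, ha, hb, h⟩ := hdiff n
    rw [h, ht]
    have hξN : ξ ≤ 3 * N := by
      have : ((N + (n + 1) : ℕ) : ℝ) ≤ 2 * N := by
        have : N + (n + 1) ≤ 2 * N := by omega
        exact_mod_cast this
      linarith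
    have hξ0 : (0 : ℝ) < ξ := lt_of_le_of_lt (Nat.cast_nonneg _) ha
    have e1 : (3 * (N : ℝ)) ^ (θ - 1) ≤ ξ ^ (θ - 1) :=
      Real.rpow_le_rpow_of_nonpos hξ0 hξN (by linarith)
    have e2 : (N : ℝ) ^ θ / (9 * N) ≤ (3 * (N : ℝ)) ^ (θ - 1) := by
      rw [Real.mul_rpow (by norm_num) hN0.le, Real.rpow_sub_one hN0.ne']
      have : (1 : ℝ) / 9 ≤ 3 ^ (θ - 1) := by
        calc (1 : ℝ) / 9 = 3 ^ (-2 : ℝ) := by
              rw [Real.rpow_neg (by norm_num)]; norm_num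
          _ ≤ 3 ^ (θ - 1) := Real.rpow_le_rpow_of_exponent_le (by norm_num) (by linarith)
      calc (N : ℝ) ^ θ / (9 * N) = (1 / 9) * ((N : ℝ) ^ θ / N) := by field_simp
        _ ≤ 3 ^ (θ - 1) * ((N : ℝ) ^ θ / N) := by gcongr
    calc |θ| * (F * (N : ℝ) ^ θ) / (9 * N) = |θ| * (F * ((N : ℝ) ^ θ / (9 * N))) := by ring
      _ ≤ |θ| * (F * ξ ^ (θ - 1)) := by
          have := e2.trans e1
          gcongr
  · intro n hn
    obtain ⟨ξ, ha, hb, h⟩ := hdiff n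
    rw [h]
    have hξN : (N : ℝ) ≤ ξ := by
      have : (N : ℝ) ≤ ((N + (n + 1) : ℕ) : ℝ) := by push_cast; linarith [(Nat.cast_nonneg n : (0:ℝ) ≤ n)]
      linarith
    have hξ0 : 0 < ξ := by linarith
    have e1 : ξ ^ (θ - 1) ≤ (N : ℝ) ^ (θ - 1) := Real.rpow_le_rpow_of_nonpos hN0 hξN (by linarith)
    have e2 : F * (N : ℝ) ^ (θ - 1) ≤ 1 / 2 := by
      rw [Real.rpow_sub_one hN0.ne', mul_div_assoc', div_le_iff₀ hN0]
      linarith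
    have e3 : |θ| * (F * ξ ^ (θ - 1)) ≤ 1 / 2 := by
      have f1 : F * ξ ^ (θ - 1) ≤ 1 / 2 := le_trans (by gcongr) e2
      have f0 : 0 ≤ F * ξ ^ (θ - 1) := by positivity
      nlinarith
    have e4 : t ≤ 1 / 2 := by
      rw [ht, div_le_iff₀ (by positivity)]
      have f0 : 0 ≤ F * (N : ℝ) ^ θ := by positivity
      nlinarith
    linarith
  · intro n hn
    obtain ⟨ξ, ha, hb, h⟩ := hdiff n
    obtain ⟨ξ', ha', hb', h'⟩ := hdiff (n + 1)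
    rw [h, h']
    have e1 : ξ ≤ ξ' := by
      have : ((N + (n + 1 + 1) : ℕ) : ℝ) = ((N + (n + 1) : ℕ) : ℝ) + 1 := by push_cast; ring
      linarith
    have hξ0 : (0 : ℝ) < ξ := lt_of_le_of_lt (Nat.cast_nonneg _) ha
    have e2 : ξ' ^ (θ - 1) ≤ ξ ^ (θ - 1) := Real.rpow_le_rpow_of_nonpos hξ0 e1 (by linarith)
    gcongr

end Pool.Agent.Helper478.Surds
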