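import Pool.Agent.Helper478_Surds.Tn2
import Pool.Agent.Helper478_Bases.Poly

/-!
# Exponential sums over `F n ^ θ`
-/

set_option autoImplicit false

namespace Pool.Agent.Helper478.Surds

open Finset
open Pool.Agent.H469R2.NK (e norm_e e_add e_zero conj_e)
open Pool.Agent.Y957.VK (TT)

/-- the binomial coefficients -/
noncomputable def cf (θ : ℝ) (j : ℕ) : ℝ := ∏ i ∈ range j, (θ - i) / (i + 1)

lemma cf_zero (θ : ℝ) : cf θ 0 = 1 := by simp [cf]

lemma cf_succ (θ : ℝ) (j : ℕ) : cf θ (j + 1) = cf θ j * ((θ - j) / (j + 1)) := by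
  rw [cf, prod_range_succ, ← cf]

lemma cf_succ' (θ : ℝ) (j : ℕ) : ((j : ℝ) + 1) * cf θ (j + 1) = (θ - j) * cf θ j := by
  rw [cf_succ]
  have : (j : ℝ) + 1 ≠ 0 := by positivity
  field_simp

lemma cf_le (θ : ℝ) (h1 : -1 ≤ θ) (h2 : θ < 1) (j : ℕ) : |cf θ j| ≤ 1 := by
  induction j with
  | zero => simp [cf_zero]
  | succ j ih =>
    rw [cf_succ, abs_mul]
    have hj : (0 : ℝ) ≤ j := Nat.cast_nonneg j
    have h3 : |(θ - j) / ((j : ℝ) + 1)| ≤ 1 := by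
      rw [abs_div, abs_of_pos (by positivity : (0 : ℝ) < (j : ℝ) + 1), div_le_one (by positivity), abs_le]
      constructor <;> linarith
    calc |cf θ j| * |(θ - j) / ((j : ℝ) + 1)| ≤ 1 * 1 := by gcongr
      _ = 1 := one_mul 1

lemma cf_ge (θ : ℝ) (h1 : -1 ≤ θ) (h2 : θ < 1) (j : ℕ) (hj : 1 ≤ j) :
    |θ| * (1 - θ) / 2 ≤ 3 ^ j * |cf θ j| := by
  have hB : 0 ≤ |θ| * (1 - θ) / 2 := by
    have : 0 ≤ 1 - θ := by linarith
    positivity
  have hθ : |θ| * (1 - θ) / 2 ≤ |θ| := by nlinarith [abs_nonneg θ]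
  have c1 : |cf θ 1| = |θ| := by
    rw [cf_succ, cf_zero]
    norm_num
  have c2 : |cf θ 2| = |θ| * (1 - θ) / 2 := by
    rw [cf_succ, abs_mul, c1]
    have : |(θ - (1 : ℕ)) / (((1 : ℕ) : ℝ) + 1)| = (1 - θ) / 2 := by
      rw [abs_div]
      push_cast
      rw [abs_of_neg (by linarith : θ - 1 < 0), abs_of_pos (by norm_num : (0 : ℝ) < 1 + 1)]
      ring
    rw [this]
    ring
  induction j with
  | zero => omega
  | succ j ih =>
    rcases Nat.lt_or_ge j 2 with hj2 | hj2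
    · rcases Nat.lt_or_ge j 1 with hj1 | hj1
      · have : j = 0 := by omega
        subst this
        rw [zero_add, c1]
        nlinarith [abs_nonneg θ]
      · have : j = 1 := by omega
        subst this
        rw [show 1 + 1 = 2 from rfl, c2]
        nlinarith
    · have h3 := ih (by omega)
      rw [cf_succ, abs_mul, pow_succ]
      have hj0 : (2 : ℝ) ≤ j := by exact_mod_cast hj2
      have h4 : 1 / 3 ≤ |(θ - j) / ((j : ℝ) + 1)| := by
        rw [abs_div, abs_of_neg (by linarith : θ - j < 0), abs_of_pos (by positivity : (0 : ℝ) < (j : ℝ) + 1),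
          div_le_div_iff₀ (by norm_num) (by positivity)]
        linarith
      calc |θ| * (1 - θ) / 2 ≤ 3 ^ j * |cf θ j| := h3
        _ = 3 ^ j * 3 * (|cf θ j| * (1 / 3)) := by ring
        _ ≤ 3 ^ j * 3 * (|cf θ j| * |(θ - j) / ((j : ℝ) + 1)|) := by gcongr

/-- the Taylor polynomials -/
noncomputable def Lr (θ : ℝ) (r : ℕ) (x : ℝ) : ℝ := ∑ j ∈ range (r + 1), cf θ j * x ^ j

lemma ode (θ : ℝ) (r : ℕ) (x : ℝ) :
    (1 + x) * (∑ j ∈ range r, ((j : ℝ) + 1) * cf θ (j + 1) * x ^ j) - θ * Lr θ r x =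
      (r - θ) * cf θ r * x ^ r := by
  induction r with
  | zero => simp [Lr, cf_zero]
  | succ r ih =>
    have e1 : Lr θ (r + 1) x = Lr θ r x + cf θ (r + 1) * x ^ (r + 1) := by
      rw [Lr, sum_range_succ, ← Lr]
    rw [sum_range_succ, e1]
    have h := cf_succ' θ r
    push_cast
    have : (1 + x) * (∑ j ∈ range r, ((j : ℝ) + 1) * cf θ (j + 1) * x ^ j +
        ((r : ℝ) + 1) * cf θ (r + 1) * x ^ r) - θ * (Lr θ r x + cf θ (r + 1) * x ^ (r + 1)) =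
        ((1 + x) * (∑ j ∈ range r, ((j : ℝ) + 1) * cf θ (j + 1) * x ^ j) - θ * Lr θ r x) +
        (1 + x) * (((r : ℝ) + 1) * cf θ (r + 1)) * x ^ r - θ * cf θ (r + 1) * x ^ (r + 1) := by ring
    rw [this, ih, pow_succ]
    linear_combination (x ^ r) * h

lemma hasDerivAt_Lr (θ : ℝ) (r : ℕ) (x : ℝ) :
    HasDerivAt (Lr θ r) (∑ j ∈ range r, ((j : ℝ) + 1) * cf θ (j + 1) * x ^ j) x := by
  have h1 : HasDerivAt (fun x => ∑ j ∈ range (r + 1), cf θ j * x ^ j)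
      (∑ j ∈ range (r + 1), cf θ j * (j * x ^ (j - 1))) x := by
    refine HasDerivAt.fun_sum fun j _ => ?_
    exact (hasDerivAt_pow j x).const_mul _
  have h2 : ∑ j ∈ range (r + 1), cf θ j * (j * x ^ (j - 1)) =
      ∑ j ∈ range r, ((j : ℝ) + 1) * cf θ (j + 1) * x ^ j := by
    rw [sum_range_succ']
    simp only [Nat.cast_zero, zero_mul, mul_zero, add_zero, Nat.add_sub_cancel]
    refine sum_congr rfl fun j _ => ?_
    push_cast
    ring
  rw [← h2]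
  exact h1

lemma taylor (θ : ℝ) (h1 : -1 ≤ θ) (h2 : θ < 1) (r : ℕ) (x : ℝ) (hx0 : 0 ≤ x) (hx1 : x ≤ 1) :
    |(1 + x) ^ θ - Lr θ r x| ≤ 2 * (r + 1) * x ^ (r + 1) := by
  have hd : ∀ y ∈ Set.Icc (0 : ℝ) x, HasDerivWithinAt (fun y => Lr θ r y * (1 + y) ^ (-θ))
      ((r - θ) * cf θ r * y ^ r * (1 + y) ^ (-θ - 1)) (Set.Icc 0 x) y := by
    intro y hy
    have hy0 : 0 < 1 + y := by linarith [hy.1]
    have e1 : HasDerivAt (fun y : ℝ => (1 + y) ^ (-θ)) (-θ * (1 + y) ^ (-θ - 1)) y := by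
      have := ((hasDerivAt_id y).const_add 1).rpow_const (p := -θ) (Or.inl (by simpa using hy0.ne'))
      simpa using this
    have e2 := ((hasDerivAt_Lr θ r y).mul e1).hasDerivWithinAt (s := Set.Icc 0 x)
    refine e2.congr_deriv ?_
    have e3 : (1 + y) ^ (-θ) = (1 + y) * (1 + y) ^ (-θ - 1) := by
      rw [Real.rpow_sub_one hy0.ne']
      field_simp
    rw [e3]
    have e4 := ode θ r y
    linear_combination ((1 + y) ^ (-θ - 1)) * e4
  have hb : ∀ y ∈ Set.Icc (0 : ℝ) x, ‖(r - θ) * cf θ r * y ^ r * (1 + y) ^ (-θ - 1)‖ ≤ (r + 1) * x ^ r := by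
    intro y hy
    have hy0 : 0 < 1 + y := by linarith [hy.1]
    have hy' : 1 ≤ 1 + y := by linarith [hy.1]
    rw [norm_mul, norm_mul, norm_mul, Real.norm_eq_abs, Real.norm_eq_abs, Real.norm_eq_abs,
      Real.norm_eq_abs, abs_of_nonneg (pow_nonneg hy.1 r), abs_of_pos (Real.rpow_pos_of_pos hy0 _)]
    have e1 : (1 + y) ^ (-θ - 1) ≤ 1 := Real.rpow_le_one_of_one_le_of_nonpos hy' (by linarith)
    have e2 := cf_le θ h1 h2 r
    have e3 : |(r : ℝ) - θ| ≤ r + 1 := by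
      have : (0 : ℝ) ≤ r := Nat.cast_nonneg r
      rw [abs_le]
      constructor <;> linarith
    have e4 : y ^ r ≤ x ^ r := pow_le_pow_left₀ hy.1 hy.2 r
    have e5 : 0 ≤ x ^ r := pow_nonneg hx0 r
    have hr0 : (0 : ℝ) ≤ r + 1 := by positivity
    calc |(r : ℝ) - θ| * |cf θ r| * y ^ r * (1 + y) ^ (-θ - 1) ≤ (r + 1) * 1 * x ^ r * 1 := by
          have f1 : |(r : ℝ) - θ| * |cf θ r| ≤ (r + 1) * 1 := mul_le_mul e3 e2 (abs_nonneg _) hr0
          have f2 : |(r : ℝ) - θ| * |cf θ r| * y ^ r ≤ (r + 1) * 1 * x ^ r :=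
            mul_le_mul f1 e4 (pow_nonneg hy.1 r) (by positivity)
          exact mul_le_mul f2 e1 (Real.rpow_pos_of_pos hy0 _).le (by positivity)
      _ = _ := by ring
  have h3 := (convex_Icc (0 : ℝ) x).norm_image_sub_le_of_norm_hasDerivWithin_le hd hb
    (Set.left_mem_Icc.2 hx0) (Set.right_mem_Icc.2 hx0)
  have h4 : Lr θ r 0 * (1 + 0) ^ (-θ) = 1 := by
    have : Lr θ r 0 = 1 := by
      rw [Lr, sum_range_succ']
      simp [cf_zero]
    rw [this, add_zero, Real.one_rpow, mul_one]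
  simp only [h4, Real.norm_eq_abs, sub_zero, abs_of_nonneg hx0] at h3
  have hx2 : 0 < 1 + x := by linarith
  have h5 : (1 + x) ^ θ - Lr θ r x = -((1 + x) ^ θ * (Lr θ r x * (1 + x) ^ (-θ) - 1)) := by
    have : (1 + x) ^ θ * (1 + x) ^ (-θ) = 1 := by
      rw [← Real.rpow_add hx2, add_neg_cancel, Real.rpow_zero]
    linear_combination (Lr θ r x) * this
  rw [h5, abs_neg, abs_mul, abs_of_pos (Real.rpow_pos_of_pos hx2 _)]
  have h6 : (1 + x) ^ θ ≤ 2 := by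
    calc (1 + x) ^ θ ≤ (1 + x) ^ (1 : ℝ) := Real.rpow_le_rpow_of_exponent_le (by linarith) h2.le
      _ = 1 + x := Real.rpow_one _
      _ ≤ 2 := by linarith
  calc (1 + x) ^ θ * |Lr θ r x * (1 + x) ^ (-θ) - 1| ≤ 2 * ((r + 1) * x ^ r * x) :=
        mul_le_mul h6 h3 (abs_nonneg _) (by norm_num)
    _ = 2 * (r + 1) * x ^ (r + 1) := by rw [pow_succ]; ring

lemma e_sub_le (a b : ℝ) : ‖e a - e b‖ ≤ 2 * Real.pi * |a - b| := by
  have h1 : e a - e b = e b * (Complex.exp (Complex.I * ((2 * Real.pi * (a - b) : ℝ) : ℂ)) - 1) := by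
    have h2 : e a = e b * e (a - b) := by rw [← e_add]; congr 1; ring
    rw [h2, mul_sub, mul_one]
    congr 2
    unfold Pool.Agent.H469R2.NK.e
    rw [mul_comm]
  rw [h1, norm_mul, norm_e, one_mul]
  refine (Real.norm_exp_I_mul_ofReal_sub_one_le).trans (le_of_eq ?_)
  rw [Real.norm_eq_abs, abs_mul, abs_of_pos (by positivity)]

/-- the coefficients of the phases -/
noncomputable def alp (F θ : ℝ) (n j : ℕ) : ℝ := F * (n : ℝ) ^ θ * cf θ j / (n : ℝ) ^ j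

/-- one value of `n` -/
theorem inner (F θ : ℝ) (hF : 0 ≤ F) (h1 : -1 ≤ θ) (h2 : θ < 1) (n M r : ℕ) (hn : 1 ≤ n)
    (hM : M ^ 2 ≤ n) :
    ‖∑ x ∈ Icc 1 M, ∑ y ∈ Icc 1 M, e (F * ((n + x * y : ℕ) : ℝ) ^ θ)‖ ≤
      ‖TT r M (alp F θ n)‖ + (M : ℝ) ^ 2 * (2 * Real.pi * (F * (n : ℝ) ^ θ *
        (2 * (r + 1) * ((M : ℝ) ^ 2 / n) ^ (r + 1)))) := by
  have hn0 : (0 : ℝ) < n := by exact_mod_cast hn
  have hMn : (M : ℝ) ^ 2 ≤ n := by exact_mod_cast hM
  have hnθ : 0 < (n : ℝ) ^ θ := Real.rpow_pos_of_pos hn0 _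
  have key : ∀ x ∈ Icc 1 M, ∀ y ∈ Icc 1 M,
      ‖e (F * ((n + x * y : ℕ) : ℝ) ^ θ) - e (F * (n : ℝ) ^ θ) *
        Complex.exp (2 * Real.pi * Complex.I *
          ((∑ j ∈ Finset.Icc 1 r, alp F θ n j * ((x : ℝ) * y) ^ j : ℝ) : ℂ))‖ ≤
      2 * Real.pi * (F * (n : ℝ) ^ θ * (2 * (r + 1) * ((M : ℝ) ^ 2 / n) ^ (r + 1))) := by
    intro x hx y hy
    have hx' : (x : ℝ) ≤ M := by exact_mod_cast (mem_Icc.1 hx).2
    have hy' : (y : ℝ) ≤ M := by exact_mod_cast (mem_Icc.1 hy).2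
    set z : ℝ := (x : ℝ) * y / n with hz
    have hz0 : 0 ≤ z := by positivity
    have hxy : (x : ℝ) * y ≤ (M : ℝ) ^ 2 := by
      rw [sq]; exact mul_le_mul hx' hy' (by positivity) (by positivity)
    have hzM : z ≤ (M : ℝ) ^ 2 / n := by rw [hz]; gcongr
    have hz1 : z ≤ 1 := hzM.trans (by rw [div_le_one hn0]; exact hMn)
    have e1 : F * ((n + x * y : ℕ) : ℝ) ^ θ = F * (n : ℝ) ^ θ * (1 + z) ^ θ := by
      have : ((n + x * y : ℕ) : ℝ) = n * (1 + z) := by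
        rw [hz]; push_cast; field_simp
      rw [this, Real.mul_rpow hn0.le (by linarith)]
      ring
    have e2 : e (F * (n : ℝ) ^ θ) * Complex.exp (2 * Real.pi * Complex.I *
          ((∑ j ∈ Finset.Icc 1 r, alp F θ n j * ((x : ℝ) * y) ^ j : ℝ) : ℂ)) =
        e (F * (n : ℝ) ^ θ * Lr θ r z) := by
      have e3 : F * (n : ℝ) ^ θ * Lr θ r z = F * (n : ℝ) ^ θ +
          ∑ j ∈ Finset.Icc 1 r, alp F θ n j * ((x : ℝ) * y) ^ j := by
        rw [Lr, Finset.range_eq_Ico, Finset.sum_eq_sum_Ico_succ_bot (by omega), cf_zero, pow_zero,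
          mul_one, mul_add, mul_one, mul_sum]
        congr 1
        refine sum_congr rfl fun j _ => ?_
        rw [alp, hz, div_pow]
        ring
      rw [e3, e_add]
      congr 1
      unfold Pool.Agent.H469R2.NK.e
      congr 1
      push_cast
      ring
    rw [e1, e2]
    refine (e_sub_le _ _).trans ?_
    rw [← mul_sub, abs_mul, abs_of_nonneg (by positivity)]
    have e4 := taylor θ h1 h2 r z hz0 hz1
    have e5 : 2 * ((r : ℝ) + 1) * z ^ (r + 1) ≤ 2 * (r + 1) * ((M : ℝ) ^ 2 / n) ^ (r + 1) := by gcongr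
    gcongr
    exact e4.trans e5
  have e1 : ∑ x ∈ Icc 1 M, ∑ y ∈ Icc 1 M, e (F * ((n + x * y : ℕ) : ℝ) ^ θ) =
      e (F * (n : ℝ) ^ θ) * TT r M (alp F θ n) +
      ∑ x ∈ Icc 1 M, ∑ y ∈ Icc 1 M, (e (F * ((n + x * y : ℕ) : ℝ) ^ θ) - e (F * (n : ℝ) ^ θ) *
        Complex.exp (2 * Real.pi * Complex.I *
          ((∑ j ∈ Finset.Icc 1 r, alp F θ n j * ((x : ℝ) * y) ^ j : ℝ) : ℂ))) := by
    unfold TT
    simp only [Finset.sum_sub_distrib, Finset.mul_sum]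
    ring
  rw [e1]
  refine (norm_add_le _ _).trans ?_
  rw [norm_mul, norm_e, one_mul]
  refine add_le_add le_rfl ?_
  refine (norm_sum_le _ _).trans ?_
  refine (Finset.sum_le_sum fun x hx => (norm_sum_le _ _).trans
    (Finset.sum_le_sum fun y hy => key x hx y hy)).trans ?_
  simp only [Finset.sum_const, Nat.card_Icc, Nat.add_sub_cancel, nsmul_eq_mul]
  rw [sq]
  linarith

end Pool.Agent.Helper478.Surds
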